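import Pool.Agent.Q71.TS.Main

/-!
# The standard conjecture D for products of powers of varieties with a maximal degeneration, or with
# ordinary K3 slopes, with other varieties

Let `W` be a Weil cohomology theory with an algebraically closed coefficient field on a class of
smooth proper varieties over a field `k` of any characteristic, and `G` a class of varieties, closed
under products, with an action of a group `Γ` with the formal properties of a Galois action (the
example: varieties over a subfield `F` of the algebraically closed field `k` and the Galois group of
`F`; `χ` is the inverse of the cyclotomic character).

Let `X_i` be polarized varieties in `G` of even dimension which satisfy the standard conjectures of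
Lefschetz and of Hodge type (for example surfaces), whose transcendental cohomology `T_i` (the
orthogonal complement of all algebraic classes) is in the middle degree, irreducible under all
subgroups of finite index, and of rank `3` or at least `5`. For every `i` one of the following holds.

* An element `g_i` of `Γ` acts on `T_i` with `(g_i - 1)^3 = 0`, `(g_i - 1)^2 ≠ 0` and `g_i - 1` of
  rank `2`. Example: an element of the inertia group at a place of maximal degeneration (type III
  reduction) of a K3 surface, or of a surface of any geometric genus whose local monodromy has the
  Jordan blocks `3, 1, ..., 1` on `T_i`.
* An element `F_i` of `Γ` (a Frobenius element) acts on `T_i` with the slopes `h + c`, `h - c`, once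
  each, and `h` (ordinary K3 type), for a valuation of the coefficient field.

Suppose that the `T_i` are not isomorphic to each other up to a twist, that for two indices with
rank `8` the element (and the valuation) is the same, and that the cohomology of `Z` is generated by
representations which are small with respect to the `X_i` (see `LocSmallOn`, `SmallFor`; for instance
`Z` has good reduction at the place of `g_i`). Nothing else is assumed on `Z`: neither the Tate
conjecture nor any of the standard conjectures.

**Theorem.** Numerical and homological equivalence coincide on the product of `Z` with powers of
different `X_i`, with less than `rank T_i` factors `X_i`, if and only if they coincide on `Z`.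
-/

universe u

namespace Pool.Agent.Results.MP_5f0950_ag.MaximalDegenerations

open Pool.Agent.H914 Pool.Agent.TH125.Gal Pool.Agent.Q71.TM.P Pool.Agent.Q71.TS

/-- **The conjecture D for products with powers of varieties with a maximal degeneration or with
ordinary K3 slopes.** -/
theorem result {k : Type u} [Field k] {𝒱 : VarClass k} {ops : CycleOps 𝒱}
    {W : WeilCohomology.{u, 0} ops} (hK : IsAlgClosed W.K) {Γ : Type} [Group Γ] {T : Tw W.K Γ}
    {G : Set (GVar W Γ)} {ι : Type} {l : ι → Loc W.K Γ} {r : ι → ℕ} {X : ι → GVar W Γ}
    {D : ∀ i, (X i).X.Cycles} {Z : GVar W Γ} (h : PolFamily T G l r X D Z) (E : Z.X.Cycles)
    {L : List (ι × ℕ)} (hL : SmallExps r L) :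
    HomEqNum W (polTower ops (fun i => ⟨(X i).X, D i⟩) ⟨Z.X, E⟩ L).X ↔ HomEqNum W Z.X :=
  h.homEqNum E hL

end Pool.Agent.Results.MP_5f0950_ag.MaximalDegenerations
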