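import Pool.Agent.Q70.LA.D

/-!
# The conjecture D reduces to one codimension in odd dimensions

Let `W` be a Weil cohomology theory. `HomEqNumIn W V q` is the conjecture D for the cycles of codimension
`q` on `V`: numerically trivial cycles of codimension `q` are homologically trivial. `LefschetzB W X D`
is the Lefschetz standard conjecture for `X` and the divisor `D`.

1. Let `D` be a divisor with hard Lefschetz on `X`, `n = dim X`, and let `i : Y → X` be the inclusion of
a smooth hyperplane section that belongs to `D` (`IsSection`). Then the conjecture D for `X × Y` in the
**one** codimension `n` implies: the conjecture D for `X × Y`, for `X` and for `Y` in all codimensions,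
the conjecture B for `X`, and, on the squares, that every numerically trivial correspondence on
`X × X` (of any codimension) acts as zero on the cohomology of `X` outside the middle degree and on
the multiples of `D`, with values primitive classes of the middle degree; and that every numerically
trivial correspondence on `Y × Y` acts as zero on the image of `i^*`, with values in the kernel of
`i_*` (the vanishing cohomology). It is equivalent to the conjecture B for `X` together with the
conjecture D for `X × Y` in codimension `n - 1`.

2. Let `Pol` be a class of polarized varieties with hard Lefschetz which is closed under squares and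
under the products in 1 (for example all smooth projective varieties with the hyperplane classes of
all projective embeddings). The conjecture D for all varieties in `Pol` and all codimensions is
equivalent to the conjecture D for the cycles of codimension `m + 1` on the varieties of dimension
`2 m + 1`, and to the conjecture B for all pairs in `Pol` together with the conjecture D for the
cycles of codimension `m` on the varieties of dimension `2 m + 1`.

So a counterexample to the conjecture D exists in odd dimension `2 m + 1` and codimension `m + 1`, if there
is one at all. That the conjecture D (for `X × X`) implies the conjecture B for `X` is due to Smirnov. The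
parts of statement 1 are theorems of the starting tree (`W534`) which are not used in a hand-in there;
statement 2 is new.
-/

set_option autoImplicit false

open CategoryTheory AlgebraicGeometry

universe u v

namespace Pool.Agent.Results.MP_5f0950_ag.OneCodimension

open Pool.Agent.H914 Pool.Agent.H447 Pool.Agent.W534 VarClass Obj WeilCohomology Pool.Agent.Q70.LA

/-- **The conjecture D in one codimension.** -/
theorem result {k : Type u} [Field k] {𝒱 : VarClass k} {ops : CycleOps 𝒱}
    (W : WeilCohomology.{u, v} ops) :
    (∀ (X Y : 𝒱.Obj) (i : Y ⟶ X) (D : X.Cycles), X.IsCyc 1 D → HardLefschetz W X D →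
      IsSection W i D →
      List.TFAE [
        HomEqNumIn W (X.prod Y) X.dim,
        ∀ q, HomEqNumIn W (X.prod Y) q,
        LefschetzB W X D ∧ HomEqNumIn W (X.prod Y) Y.dim] ∧
      (HomEqNumIn W (X.prod Y) X.dim →
        (∀ q, HomEqNumIn W X q) ∧ (∀ q, HomEqNumIn W Y q) ∧
          ∀ q, NumTrivialOnSquares W i D q)) ∧
    (∀ Pol : ∀ X : 𝒱.Obj, X.Cycles → Prop, SectionClass W Pol → ClosedUnderSquares ops Pol →
      List.TFAE [
        ∀ (X : 𝒱.Obj) (D : X.Cycles), Pol X D → ∀ q, HomEqNumIn W X q,
        ∀ (X : 𝒱.Obj) (D : X.Cycles), Pol X D → ∀ m, X.dim = 2 * m + 1 → HomEqNumIn W X (m + 1),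
        (∀ (X : 𝒱.Obj) (D : X.Cycles), Pol X D → LefschetzB W X D) ∧
          ∀ (X : 𝒱.Obj) (D : X.Cycles), Pol X D → ∀ m, X.dim = 2 * m + 1 →
            HomEqNumIn W X m]) := by
  refine ⟨fun X Y i D hD hHL hY => ⟨d_hyperplane hY.dim hD hY.cls hHL hY.weak, fun h =>
    ⟨fun q => (homEqNum_factors hY.dim hD hY.cls hHL hY.weak h q).1,
      fun q => (homEqNum_factors hY.dim hD hY.cls hHL hY.weak h q).2,
      fun q => numTrivialOnSquares hY.dim hD hY.cls hHL hY.weak h q⟩⟩,
    fun Pol h1 h2 => d_tfae h1 h2⟩

end Pool.Agent.Results.MP_5f0950_ag.OneCodimension
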