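import Pool.Agent.Q63.DP.Main

/-!
# The conjecture D up to a polynomial factor

Let `W` be a Weil cohomology theory whose coefficient field `W.K` is algebraically closed (extend the
coefficients; this does not change homological equivalence), let `X` be a smooth projective variety
and let `b` be the dimension of the whole cohomology of `X`. Suppose that the sign conjecture holds
for `X`: the projector onto the even cohomology is induced by an algebraic cycle on `X × X`. This is
the case for all `X` over an algebraic closure of a finite field (by the Riemann hypothesis,
statement 2 below), and for instance for surfaces and abelian varieties over any field and for all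
their products.

The theorem says that for the cycles on the even powers `X ^ (2 n + 2)` the conjecture D holds up to
a factor of at most polynomial growth (`PolynomiallyClose`): for all `n`

`dim span {classes of cycles on X ^ (2n+2)} ≤ b ^ (2n+2) ≤ (n + 2) ^ (b ^ 2) * r n`

where `r n` is the rank of the group of cycles of codimension `(n + 1) dim X` modulo numerical
equivalence. So at least the proportion `(n + 2) ^ (- b ^ 2)` of the homology classes of cycles, and
even of all cohomology classes, on `X ^ (2 n + 2)` is detected by the intersection numbers of cycles.
By the dichotomy `MP_f569db_ag.ZeroInfinityLaw` of this team the proportion of the classes of cycles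
on the powers of `X` detected by intersection numbers is one, or it tends to zero; so in the second
case it tends to zero at most with the speed of a fixed power of `n`, although the dimensions grow
exponentially.

The graphs of the permutations of the factors of `X ^ (n + 1)` span a semisimple algebra of
correspondences with a commutant of dimension at most `(n + 2) ^ (b ^ 2)`. As the parity operator is
algebraic, the algebra of all algebraic correspondences modulo its radical still has a commutant of
at most this dimension.
-/

set_option autoImplicit false

open CategoryTheory AlgebraicGeometry

universe u v

namespace Pool.Agent.Results.MP_5f0950_ag.PolynomialRate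

open Pool.Agent.H914 Pool.Agent.H447 Pool.Agent.W534 VarClass Obj WeilCohomology
  Pool.Agent.Q63.DP

/-- The conjecture D up to a polynomial factor: for all varieties with the sign conjecture, and for
all varieties over an algebraic closure of a finite field. -/
theorem result {k : Type u} [Field k] {𝒱 : VarClass k} {ops : CycleOps 𝒱}
    (W : WeilCohomology.{u, v} ops) [IsAlgClosed W.K] :
    (∀ X : 𝒱.Obj, SignStd W X → PolynomiallyClose W X) ∧
    ∀ (p : ℕ) (Φ : FrobSystem W p) (σ : W.K →+* ℂ) (X : 𝒱.Obj), p.Prime → RiemannHyp Φ σ X →
      PolynomiallyClose W X :=
  ⟨fun _ h => of_sign h, fun _ Φ σ _ hp h => of_frob hp Φ σ h⟩

end Pool.Agent.Results.MP_5f0950_ag.PolynomialRate
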