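import Mathlib
import Pool.Agent.Q70.SQ.Ord
import Pool.Agent.Q70.SQ.Times

/-!
# Homological and numerical equivalence on the products of abelian varieties with varieties whose
slopes have a small mean square deviation

Let `q = p ^ a` and let `A` be an abelian variety, of any dimension, over the field with `q`
elements, isogenous to a product of powers of abelian varieties with characteristic polynomials of
Frobenius `f i` (`i` in a finite set), the complex roots of `f i` being the conjugates of a Weil
number `π i` for `q` in a CM field `F i` (`IsPolyOf`). We suppose (the generic case; the first
condition is true, for example, if the Galois group of the normal closure of `F i` consists of all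
permutations of the embeddings compatible with the complex conjugation, or if only some
automorphism exchanges one embedding with its complex conjugate and fixes all the others):

* the functions `n` on the complex embeddings of `F i` with `n (conj φ) = - n φ` are an absolutely
  irreducible representation of the automorphisms of `ℂ` (`OddAbsolutelyIrreducible`), and there
  are no equivariant maps between those of `F i` and `F i'` for `i ≠ i'` (`Unrelated`);
* no `π i` is supersingular (`HasOtherSlope`).

Let `Z` be **any** smooth projective variety over the same field. For an eigenvalue `α` of the
Frobenius endomorphism on the cohomology of `Z` of weight `w` (`|α| = q ^ (w / 2)`) let `d (α)` be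
the mean of `(s - w / 2) ^ 2` over the slopes `s` of all `p`-adic conjugates of `α` (`deviation`,
up to the factor `(log q) ^ 2`), and similarly `d (π i)` with `w = 1`; so `d (π i) = 1 / 4` if `π
i` is ordinary (second part of the theorem). We suppose (`GoodRoots`) that for all eigenvalues `α`
and all `i`

* `α` is unrelated to `F i` (`UnrelatedTo`: a function `n` as above on the embeddings of `F i`
  which is invariant under all automorphisms of `ℂ` that fix a power of `α` is zero), **or**
* `d (α) < d (π i)`, **or**
* the weight of `α` is even and `d (α) < d (π i) + d (π i')` for all `i'` (`SmallDeviation`).

Then (`HomNumFor`) for every `c` **homological and numerical equivalence coincide for cycles of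
codimension `c` on `A × Z` if and only if they coincide for cycles of codimension `c - i` on `Z`
for all `0 ≤ i ≤ dim A`.** The cohomology is any Weil cohomology with algebraically closed
coefficient field, for instance `ℓ`-adic or crystalline cohomology, with extended coefficients. As
homological and numerical equivalence coincide for divisors (Matsusaka) and for cycles of
dimension zero, they coincide on `A × Z` in all codimensions for all surfaces `Z` with eigenvalues
as above, for example for the K3 surfaces below, and for all `Z` in the codimensions `c ≤ 1`.
Nothing else is assumed on `Z`: no conjecture of Lefschetz type and no Tate conjecture (with the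
conjecture B or with the Tate conjecture for `Z` the statement would be easier).

Examples, for `A` with ordinary `π i`. The conditions on `α` hold for all `Z` such that the slopes
of Frobenius on `H^(2 v)(Z)` satisfy `|s - v| < 1 / √2` and the odd cohomology vanishes (or is
unrelated to the `F i`, or has slopes with `|s - w / 2| < 1 / 2`). In general they hold for all
`α` of weight `2 v` whose degree over `ℚ` is more than `2 ∑ (s - v) ^ 2`, the sum over all
conjugates. As the Newton polygon lies above the Hodge polygon, for the second cohomology of a
surface of geometric genus `g` it suffices that all eigenvalues which are not `q` times a root of
unity have degree more than `4 g` (more than four for K3 surfaces, for instance for all K3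
surfaces of Picard number at most sixteen whose transcendental Frobenius polynomial is
irreducible). The conditions of this kind do not exclude any relation between the Galois groups of
`A` and `Z`: `ℚ(α)` may be contained in a field `F i`, or in its Galois closure. As `q` and the `π
i` are arbitrary the theorem can be applied over all finite extensions of the ground field.

Relation to the starting files. `AllCMTypesTimes` (this folder) is the theorem for the abelian
varieties of almost all slope types of all CM fields if all `α` are unrelated to the `F i`; this
is the first alternative above. New here are the second and the third alternative (no condition on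
Galois groups, only on slopes), for all absolutely irreducible fields.
`MP_2a05c8_ag.SmallSlopeDeviation` (helper70, this team) has the criterion for the Tate classes in
Galois representations of finitely generated fields.

The proof. A multiplicative relation between `α`, a power of `q` and a product of conjugates of
the `π i` gives, for each automorphism `σ` of a Galois closure `L`, the linear relation `s (σ α) -
w / 2 = ∑ x, n x (s (σ x) - 1 / 2)` between slopes, up to signs, where the sum is over one
embedding `x` of each conjugate pair and `n x` is the difference of the multiplicities of `x` and
`bar x`. The second moments `∑ σ, (s (σ x) - 1 / 2) (s (σ y) - 1 / 2)` are an invariant form on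
the odd functions; it is real valued, but all its compositions with rational functionals `ℝ → ℚ`
are rational invariant forms, and so the slopes at different pairs `x`, `y` are uncorrelated, by
Schur's lemma. Hence `d (α) = ∑ x, (n x) ^ 2 d (π x)`. If the weight is even, so is the sum of all
multiplicities, and a single `n x = ± 1` is impossible. So all `n x` are zero (`noRel_good`). The
reduction of the conjecture for `A × Z` to these relations is the one of the starting files
(Y1.CT).
-/

set_option autoImplicit false

namespace Pool.Agent.Results.MP_5f0950_ag.SmallSlopeDeviation

open NumberField Module Polynomial IntermediateField Pool.Agent.Y137.MV Pool.Agent.Y137.SL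
  Pool.Agent.Y1.CT Pool.Agent.TH170.GS Pool.Agent.TH170 Pool.Agent.Q70.SQ

/-- **Homological and numerical equivalence coincide for cycles of codimension `c` on `A × Z` if
and only if they do for cycles of codimension `c - i` on `Z`, `0 ≤ i ≤ dim A`, for the abelian
varieties `A` over finite fields with absolutely irreducible, unrelated CM fields and no
supersingular part, and all varieties `Z` each of whose Frobenius eigenvalues is unrelated to
these fields or has small mean square slope deviation.** -/
theorem result :
    (∀ (p : ℕ) [Fact p.Prime] (a : ℕ) (I : Type) [Fintype I] (F : I → Type)
      [∀ i, Field (F i)] [∀ i, NumberField (F i)] [∀ i, IsCMField (F i)] (π : ∀ i, F i)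
      (f : I → ℤ[X]), 0 < a →
      (∀ i, π i * IsCMField.complexConj (F i) (π i) = (p : F i) ^ a) →
      (∀ i, OddAbsolutelyIrreducible (F i)) →
      (∀ i i', i ≠ i' → Pool.Agent.Y137.MV.Unrelated (F i) (F i')) →
      (∀ i, HasOtherSlope p a (π i)) → (∀ i, IsPolyOf (π i) (f i)) →
      HomNumFor (GoodRoots p a π) (p ^ a) f) ∧
    (∀ (p : ℕ) [Fact p.Prime] (a : ℕ) (F : Type) [Field F] [NumberField F] (π : F),
      IsOrdinary p a π → weilDeviation p a π = (a * Real.log p) ^ 2 / 4) := by
  refine ⟨?_, ?_⟩
  · intro p _ a I _ F _ _ _ π f ha hw habs hun hns hf
    exact homNumFor_of (Nat.one_lt_pow ha.ne' (Fact.out : p.Prime).one_lt)
      (noRel_good ha hw habs hun hns f hf)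
  · intro p _ a F _ _ π h
    exact weilDeviation_ordinary h

end Pool.Agent.Results.MP_5f0950_ag.SmallSlopeDeviation
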